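import Pool.Agent.Results.MP_4efd05_mp.PositiveBoundState
import Pool.Agent.H.MP_4efd05_mp.NoEigen

/-!
A smooth localized time-dependent potential on the line such that `-∂_x ^ 2 + V(·, t)` has no
bound state for any fixed time `t`, while the time-dependent equation has a localized solution.
-/

open Filter Topology Set MeasureTheory
open scoped ContDiff ENNReal

namespace Pool.Agent.Results.MP_4efd05_mp.NoInstantBoundState

open PositiveBoundState (IsSolution IsLocalized)

/-- `V` is smooth, bounded with all derivatives bounded on the plane, and localized in space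
uniformly in time (no sign condition). -/
structure SmoothLocalized (V : ℝ → ℝ → ℝ) : Prop where
  smooth : ContDiff ℝ ∞ (fun p : ℝ × ℝ => V p.1 p.2)
  bounded : ∀ k : ℕ, ∃ C : ℝ, ∀ p : ℝ × ℝ,
    ‖iteratedFDeriv ℝ k (fun q : ℝ × ℝ => V q.1 q.2) p‖ ≤ C
  localized : ∀ N : ℕ, ∃ C : ℝ, ∀ x t, |V x t| ≤ C * (1 + x ^ 2) ^ (-(N : ℝ) / 2)

/-- The operator `-∂_x ^ 2 + W` on `L²(ℝ)` has no bound states: for every real `E`, the only
square integrable distributional solution of `-u'' + W u = E u` is zero. -/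
def NoBoundState (W : ℝ → ℝ) : Prop :=
  ∀ (E : ℝ) (u : ℝ → ℂ), MemLp u 2 volume →
    (∀ φ : ℝ → ℝ, ContDiff ℝ ∞ φ → HasCompactSupport φ →
      ∫ x, u x * ((-(deriv (deriv φ) x) + W x * φ x - E * φ x : ℝ) : ℂ) = 0) →
    ∀ᵐ x, u x = 0

open Pool.Agent.H.MP_4efd05_mp in
/-- A smooth localized potential without instantaneous bound states can have a localized
solution. -/
theorem result : ∃ V : ℝ → ℝ → ℝ, SmoothLocalized V ∧ (∀ t, NoBoundState (fun x => V x t)) ∧
    ∃ ψ : ℝ → ℝ → ℂ, IsSolution V ψ ∧ IsLocalized ψ ∧ ∃ x t, ψ x t ≠ 0 := by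
  obtain ⟨A, hA0, hA1, hA⟩ := exists_amplitude
  have hA' : ∀ m φ, 1 / 2 ≤ X1 A m φ := fun m φ => (hA m φ).1
  obtain ⟨K, kap, lam, hK, hkap, hlam, hV, hV0⟩ := exists_parameters hA0 hA1 hA
  obtain ⟨Y, hYs, hXY, hYX⟩ := exists_smooth_inverse (fun m φ => X A m φ)
    (fun m φ => X1 A m φ) (fun m φ => Xp A m φ) (contDiff_X A)
    (fun m φ => by
      have := curve_X (A := A) (hasDerivAt_id' m) (hasDerivAt_const m φ)
      simpa using this)
    (fun m φ => by
      have := curve_X (A := A) (hasDerivAt_const φ m) (hasDerivAt_id' φ)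
      simpa using this) hA'
  have hVs := contDiff_Vpot (K := K) (kap := kap) (lam := lam) hA' hYs
  have hψs := contDiff_psi (K := K) (kap := kap) (lam := lam) hA' hYs
  obtain ⟨C, hC0, hC⟩ := exists_psi_bound (Y := Y) hA0 hA' hK hkap.le hlam hXY
  have hT : 0 < 2 * Real.pi / K := by positivity
  have hper : ∀ p : ℝ × ℝ, (fun q : ℝ × ℝ => Vpot A K kap lam Y q.1 q.2) (p + (0, 2 * Real.pi / K))
      = (fun q : ℝ × ℝ => Vpot A K kap lam Y q.1 q.2) p := by
    rintro ⟨x, t⟩
    simpa using Vpot_periodic hK.ne' hYX hXY x t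
  have hfar : ∀ p : ℝ × ℝ, 4 < |p.1| →
      (fun q : ℝ × ℝ => Vpot A K kap lam Y q.1 q.2) p = 0 := fun p hp => Vpot_far hYX hp
  have hbd := bounded_derivatives hVs hT hper hfar
  refine ⟨Vpot A K kap lam Y, ⟨hVs, hbd, ?_⟩, ?_,
    psi A K kap lam Y, ⟨hψs, fun x t => schroedinger hA' hYs hXY x t, ?_, ?_⟩, ?_, ?_⟩
  · intro N
    obtain ⟨B, hB⟩ := hbd 0
    have hB' : ∀ x t, |Vpot A K kap lam Y x t| ≤ B := by
      intro x t
      have := hB (x, t)
      rwa [norm_iteratedFDeriv_zero, Real.norm_eq_abs] at this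
    have hB0 : 0 ≤ B := (abs_nonneg _).trans (hB' 0 0)
    refine ⟨B * 17 ^ ((N : ℝ) / 2), fun x t => ?_⟩
    rcases le_or_gt |x| 4 with h | h
    · have h1 : 1 + x ^ 2 ≤ 17 := by
        rw [← sq_abs]
        nlinarith [abs_nonneg x]
      have h2 : (1 + x ^ 2) ^ ((N : ℝ) / 2) ≤ 17 ^ ((N : ℝ) / 2) :=
        Real.rpow_le_rpow (by positivity) h1 (by positivity)
      have h3 : (0:ℝ) < (1 + x ^ 2) ^ ((N : ℝ) / 2) := by positivity
      rw [neg_div, Real.rpow_neg (by positivity), ← div_eq_mul_inv, le_div_iff₀ h3]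
      exact mul_le_mul (hB' x t) h2 h3.le hB0
    · rw [Vpot_far hYX h, abs_zero]
      positivity
  · intro t E u hu hw
    have hpair : Continuous (fun x : ℝ => ((x, t) : ℝ × ℝ)) := by fun_prop
    have hc : Continuous (fun x => Vpot A K kap lam Y x t) := by
      have h := hVs.continuous.comp hpair
      simpa only [Function.comp_def] using h
    have h0 : ∀ x, 0 ≤ Vpot A K kap lam Y x t := fun x => hV _ _
    have h5 : ∀ x, 5 ≤ |x| → Vpot A K kap lam Y x t = 0 := fun x hx =>
      Vpot_far hYX (lt_of_lt_of_le (by norm_num) hx)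
    generalize Vpot A K kap lam Y = V at hc h0 h5 hw
    exact no_eigen (v := fun x => V x t) (R := 5) (E := E) hc h0 h5 hu hw
  · intro t
    have h1 : Continuous (fun x => psi A K kap lam Y x t) :=
      hψs.continuous.comp (continuous_id.prodMk continuous_const)
    exact memLp_of_bound h1 hC0 (fun x => hC x t)
  · exact tendsto_L2 hψs.continuous hC0 hC
  · obtain ⟨C', hC'⟩ := exists_weighted_bound hC0 hC
    exact ⟨1, one_pos, C', hC'⟩
  · refine ⟨0, 0, ?_⟩
    unfold psi
    exact Complex.exp_ne_zero _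

end Pool.Agent.Results.MP_4efd05_mp.NoInstantBoundState
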