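import Pool.Agent.H.MP_4efd05_mp.Regularity
import Pool.Agent.H.MP_4efd05_mp.LTwo

/-!
A smooth, nonnegative, spatially localized time-dependent potential on the line for which the
linear Schroedinger equation has a bound state.
-/

open Filter Topology Set MeasureTheory
open scoped ContDiff ENNReal

namespace Pool.Agent.Results.MP_4efd05_mp.PositiveBoundState

/-- `V : (x, t) ↦ V x t` is an admissible potential in dimension one: nonnegative and not
identically zero, smooth with all derivatives bounded on the plane, and localized in space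
uniformly in time. -/
structure Admissible (V : ℝ → ℝ → ℝ) : Prop where
  nonneg : ∀ x t, 0 ≤ V x t
  ne_zero : ∃ x t, V x t ≠ 0
  smooth : ContDiff ℝ ∞ (fun p : ℝ × ℝ => V p.1 p.2)
  bounded : ∀ k : ℕ, ∃ C : ℝ, ∀ p : ℝ × ℝ,
    ‖iteratedFDeriv ℝ k (fun q : ℝ × ℝ => V q.1 q.2) p‖ ≤ C
  localized : ∀ N : ℕ, ∃ C : ℝ, ∀ x t, |V x t| ≤ C * (1 + x ^ 2) ^ (-(N : ℝ) / 2)

/-- `ψ : (x, t) ↦ ψ x t` is a (smooth, global in time) solution of
`i ∂_t ψ = - ∂_x ^ 2 ψ + V ψ` belonging to `C(ℝ; L²(ℝ))`. -/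
structure IsSolution (V : ℝ → ℝ → ℝ) (ψ : ℝ → ℝ → ℂ) : Prop where
  smooth : ContDiff ℝ ∞ (fun p : ℝ × ℝ => ψ p.1 p.2)
  equation : ∀ x t, Complex.I * deriv (fun s => ψ x s) t
    = -iteratedDeriv 2 (fun y => ψ y t) x + (V x t : ℂ) * ψ x t
  memL2 : ∀ t, MemLp (fun x => ψ x t) 2 volume
  continuousL2 : ∀ t₀, Tendsto (fun t => eLpNorm (fun x => ψ x t - ψ x t₀) 2 volume) (𝓝 t₀) (𝓝 0)

/-- `ψ` is localized: for some `δ > 0` the weighted norms `‖⟨x⟩^δ ψ(t)‖_{L²}` are bounded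
uniformly in `t ∈ ℝ`. -/
def IsLocalized (ψ : ℝ → ℝ → ℂ) : Prop :=
  ∃ δ : ℝ, 0 < δ ∧ ∃ C : ℝ, ∀ t,
    eLpNorm (fun x : ℝ => ((1 + x ^ 2) ^ (δ / 2) : ℝ) • ψ x t) 2 volume ≤ ENNReal.ofReal C

open Pool.Agent.H.MP_4efd05_mp in
/-- There is an admissible (in particular nonnegative) potential with a bound state. -/
theorem result : ∃ V : ℝ → ℝ → ℝ, Admissible V ∧
    ∃ ψ : ℝ → ℝ → ℂ, IsSolution V ψ ∧ IsLocalized ψ ∧ ∃ x t, ψ x t ≠ 0 := by
  obtain ⟨A, hA0, hA1, hA⟩ := exists_amplitude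
  have hA' : ∀ m φ, 1 / 2 ≤ X1 A m φ := fun m φ => (hA m φ).1
  obtain ⟨K, kap, lam, hK, hkap, hlam, hV, hV0⟩ := exists_parameters hA0 hA1 hA
  obtain ⟨Y, hYs, hXY, hYX⟩ := exists_smooth_inverse (fun m φ => X A m φ)
    (fun m φ => X1 A m φ) (fun m φ => Xp A m φ) (contDiff_X A)
    (fun m φ => by
      have := curve_X (A := A) (hasDerivAt_id' m) (hasDerivAt_const m φ)
      simpa using this)
    (fun m φ => by
      have := curve_X (A := A) (hasDerivAt_const φ m) (hasDerivAt_id' φ)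
      simpa using this) hA'
  have hVs := contDiff_Vpot (K := K) (kap := kap) (lam := lam) hA' hYs
  have hψs := contDiff_psi (K := K) (kap := kap) (lam := lam) hA' hYs
  obtain ⟨C, hC0, hC⟩ := exists_psi_bound (Y := Y) hA0 hA' hK hkap.le hlam hXY
  have hT : 0 < 2 * Real.pi / K := by positivity
  have hper : ∀ p : ℝ × ℝ, (fun q : ℝ × ℝ => Vpot A K kap lam Y q.1 q.2) (p + (0, 2 * Real.pi / K))
      = (fun q : ℝ × ℝ => Vpot A K kap lam Y q.1 q.2) p := by
    rintro ⟨x, t⟩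
    simpa using Vpot_periodic hK.ne' hYX hXY x t
  have hfar : ∀ p : ℝ × ℝ, 4 < |p.1| →
      (fun q : ℝ × ℝ => Vpot A K kap lam Y q.1 q.2) p = 0 := fun p hp => Vpot_far hYX hp
  have hbd := bounded_derivatives hVs hT hper hfar
  refine ⟨Vpot A K kap lam Y, ⟨fun x t => hV _ _, ?_, hVs, hbd, ?_⟩,
    psi A K kap lam Y, ⟨hψs, fun x t => schroedinger hA' hYs hXY x t, ?_, ?_⟩, ?_, ?_⟩
  · refine ⟨X A 0 0, 0, ?_⟩
    unfold Vpot
    rw [mul_zero, hYX]
    exact hV0.ne'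
  · intro N
    obtain ⟨B, hB⟩ := hbd 0
    have hB' : ∀ x t, |Vpot A K kap lam Y x t| ≤ B := by
      intro x t
      have := hB (x, t)
      rwa [norm_iteratedFDeriv_zero, Real.norm_eq_abs] at this
    have hB0 : 0 ≤ B := (abs_nonneg _).trans (hB' 0 0)
    refine ⟨B * 17 ^ ((N : ℝ) / 2), fun x t => ?_⟩
    rcases le_or_gt |x| 4 with h | h
    · have h1 : 1 + x ^ 2 ≤ 17 := by
        rw [← sq_abs]
        nlinarith [abs_nonneg x]
      have h2 : (1 + x ^ 2) ^ ((N : ℝ) / 2) ≤ 17 ^ ((N : ℝ) / 2) :=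
        Real.rpow_le_rpow (by positivity) h1 (by positivity)
      have h3 : (0:ℝ) < (1 + x ^ 2) ^ ((N : ℝ) / 2) := by positivity
      rw [neg_div, Real.rpow_neg (by positivity), ← div_eq_mul_inv, le_div_iff₀ h3]
      exact mul_le_mul (hB' x t) h2 h3.le hB0
    · rw [Vpot_far hYX h, abs_zero]
      positivity
  · intro t
    have h1 : Continuous (fun x => psi A K kap lam Y x t) :=
      hψs.continuous.comp (continuous_id.prodMk continuous_const)
    exact memLp_of_bound h1 hC0 (fun x => hC x t)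
  · exact tendsto_L2 hψs.continuous hC0 hC
  · obtain ⟨C', hC'⟩ := exists_weighted_bound hC0 hC
    exact ⟨1, one_pos, C', hC'⟩
  · refine ⟨0, 0, ?_⟩
    unfold psi
    exact Complex.exp_ne_zero _

end Pool.Agent.Results.MP_4efd05_mp.PositiveBoundState
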